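import Pool.Agent.L5helper29.OF.Defs

/-!
# Generation of the Lie algebra of a coefficient system by a Cartan subalgebra and the elementary
operators
-/

set_option autoImplicit false
set_option linter.all false

namespace Pool.Agent.L5helper24.OF

open Matrix Module Finset Pool.Agent.L5helper73.CC Pool.Agent.L5helper29.OF

section

variable {K : Type} [Field K] [CharZero K] {Y : Type} [AddCommGroup Y] [Module K Y]
  [FiniteDimensional K Y] {I : Type} [Fintype I] [DecidableEq I] {ω : Y →ₗ[K] Y →ₗ[K] K}
  {P : I → Y →ₗ[K] Y} {st : I → I} {A : I → Finset K} {q : K}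
  {b : Basis (Σ i, {x // x ∈ A i}) K Y}

theorem ext_S {a c : Σ i, {x // x ∈ A i}} (h1 : a.1 = c.1) (h2 : (a.2 : K) = c.2) : a = c := by
  obtain ⟨i, x, hx⟩ := a
  obtain ⟨j, y, hy⟩ := c
  dsimp only at h1
  subst h1
  dsimp only at h2
  subst h2
  rfl

theorem dl_dl (hD : Dat ω P st) (hb : EigBasis ω P st A q b) (a : Σ i, {x // x ∈ A i}) :
    dl st hb.dual (dl st hb.dual a) = a := by
  refine ext_S (hD.inv a.1) ?_
  change q / (q / (a.2 : K)) = a.2
  have h1 := hb.ne_zero a.1 a.2 a.2.2
  have h2 := hb.q_ne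
  field_simp

theorem eq_dl (hb : EigBasis ω P st A q b) {a c : Σ i, {x // x ∈ A i}}
    (h : ω (b a) (b c) ≠ 0) : c = dl st hb.dual a := by
  obtain ⟨h1, h2⟩ := hb.orth a c h
  refine ext_S h1 ?_
  change (c.2 : K) = q / a.2
  rw [eq_div_iff (hb.ne_zero _ _ a.2.2), mul_comm]
  exact h2

theorem w_ne (hD : Dat ω P st) (hb : EigBasis ω P st A q b) (a : Σ i, {x // x ∈ A i}) :
    ω (b a) (b (dl st hb.dual a)) ≠ 0 := by
  classical
  intro h
  apply b.ne_zero a
  refine hD.nd _ fun v => ?_
  rw [← b.sum_repr v, map_sum]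
  refine Finset.sum_eq_zero fun c _ => ?_
  rw [map_smul]
  by_cases hc : ω (b a) (b c) = 0
  · rw [hc, smul_zero]
  · rw [eq_dl hb hc, h, smul_zero]

theorem repr_w (hD : Dat ω P st) (hb : EigBasis ω P st A q b) (u : Y)
    (a : Σ i, {x // x ∈ A i}) :
    b.repr u a * ω (b a) (b (dl st hb.dual a)) = ω u (b (dl st hb.dual a)) := by
  classical
  conv_rhs => rw [← b.sum_repr u]
  rw [map_sum, LinearMap.sum_apply, Finset.sum_eq_single a]
  · rw [map_smul, LinearMap.smul_apply, smul_eq_mul]
  · intro c _ hc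
    rw [map_smul, LinearMap.smul_apply]
    by_cases h : ω (b c) (b (dl st hb.dual a)) = 0
    · rw [h, smul_zero]
    · exfalso
      apply hc
      have h1 := eq_dl hb h
      have h2 := congrArg (dl st hb.dual) h1
      rw [dl_dl hD hb, dl_dl hD hb] at h2
      exact h2.symm
  · intro h
    exact absurd (Finset.mem_univ _) h

/-- The skewness of the matrix of a good operator. -/
theorem skew_M (hD : Dat ω P st) (hb : EigBasis ω P st A q b) {X : Y →ₗ[K] Y} (hX : Good ω P X)
    (a c : Σ i, {x // x ∈ A i}) :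
    b.repr (X (b a)) c * ω (b c) (b (dl st hb.dual c)) =
      -(b.repr (X (b (dl st hb.dual c))) (dl st hb.dual a) * ω (b a) (b (dl st hb.dual a))) := by
  rw [repr_w hD hb]
  have h1 := repr_w hD hb (X (b (dl st hb.dual c))) (dl st hb.dual a)
  rw [dl_dl hD hb] at h1
  have h2 := hD.skew (b (dl st hb.dual a)) (b a)
  have h3 := hX.skew (b (dl st hb.dual c)) (b a)
  have h4 := hD.skew (X (b a)) (b (dl st hb.dual c))
  rw [h2] at h1
  linear_combination h4 - h3 - h1

theorem P_b (hD : Dat ω P st) (hb : EigBasis ω P st A q b) (i : I)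
    (a : Σ i, {x // x ∈ A i}) : P i (b a) = if a.1 = i then b a else 0 := by
  split_ifs with h
  · rw [← h]
    exact hb.mem a
  · rw [← hb.mem a, hD.or i a.1 (Ne.symm h)]

theorem repr_P (hD : Dat ω P st) (hb : EigBasis ω P st A q b) (i : I) (u : Y)
    (c : Σ i, {x // x ∈ A i}) : b.repr (P i u) c = if c.1 = i then b.repr u c else 0 := by
  classical
  conv_lhs => rw [← b.sum_repr u]
  rw [map_sum, map_sum, Finsupp.finset_sum_apply, Finset.sum_eq_single c]
  · rw [map_smul, P_b hD hb, map_smul, Finsupp.smul_apply, smul_eq_mul]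
    split_ifs with h
    · rw [Basis.repr_self, Finsupp.single_eq_same, mul_one]
    · rw [map_zero, Finsupp.zero_apply, mul_zero]
  · intro d _ hd
    rw [map_smul, P_b hD hb, map_smul, Finsupp.smul_apply, smul_eq_mul]
    split_ifs with h
    · rw [Basis.repr_self, Finsupp.single_eq_of_ne (Ne.symm hd), mul_zero]
    · rw [map_zero, Finsupp.zero_apply, mul_zero]
  · intro h
    exact absurd (Finset.mem_univ _) h

theorem piece (hD : Dat ω P st) (hb : EigBasis ω P st A q b) {X : Y →ₗ[K] Y} (hX : Good ω P X)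
    {a c : Σ i, {x // x ∈ A i}} (h : b.repr (X (b a)) c ≠ 0) : a.1 = c.1 := by
  by_contra hne
  apply h
  rw [← hb.mem a, hX.com, repr_P hD hb, if_neg (Ne.symm hne)]

theorem Rop_b (hD : Dat ω P st) (hb : EigBasis ω P st A q b) (a c e : Σ i, {x // x ∈ A i}) :
    Rop ω (b c) (b (dl st hb.dual a)) (b e) =
      ω (b c) (b e) • b (dl st hb.dual a) + ω (b (dl st hb.dual a)) (b e) • b c := rfl

/-- A good operator is a combination of the elementary operators. -/
theorem decomp (hD : Dat ω P st) (hb : EigBasis ω P st A q b) {X : Y →ₗ[K] Y} (hX : Good ω P X) :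
    X = (-(1 / 2) : K) • ∑ a, ∑ c, (b.repr (X (b a)) c / ω (b a) (b (dl st hb.dual a))) •
      Rop ω (b c) (b (dl st hb.dual a)) := by
  classical
  refine b.ext fun e => ?_
  have hw := w_ne hD hb
  have key : (∑ a, ∑ c, (b.repr (X (b a)) c / ω (b a) (b (dl st hb.dual a))) •
      Rop ω (b c) (b (dl st hb.dual a))) (b e) = (-2 : K) • X (b e) := by
    rw [LinearMap.sum_apply]
    have h1 : ∀ a, (∑ c, (b.repr (X (b a)) c / ω (b a) (b (dl st hb.dual a))) •
        Rop ω (b c) (b (dl st hb.dual a))) (b e) =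
        (∑ c, ((b.repr (X (b a)) c / ω (b a) (b (dl st hb.dual a))) * ω (b c) (b e)) •
          b (dl st hb.dual a)) +
        ∑ c, ((b.repr (X (b a)) c / ω (b a) (b (dl st hb.dual a))) *
          ω (b (dl st hb.dual a)) (b e)) • b c := by
      intro a
      rw [LinearMap.sum_apply, ← Finset.sum_add_distrib]
      refine Finset.sum_congr rfl fun c _ => ?_
      rw [LinearMap.smul_apply, Rop_b hD hb, smul_add, smul_smul, smul_smul]
    rw [Finset.sum_congr rfl fun a _ => h1 a, Finset.sum_add_distrib]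
    have h2 : ∀ a, (∑ c, ((b.repr (X (b a)) c / ω (b a) (b (dl st hb.dual a))) *
        ω (b c) (b e)) • b (dl st hb.dual a)) =
        -(b.repr (X (b e)) (dl st hb.dual a)) • b (dl st hb.dual a) := by
      intro a
      rw [Finset.sum_eq_single (dl st hb.dual e)]
      · congr 1
        have h3 := skew_M hD hb hX a (dl st hb.dual e)
        rw [dl_dl hD hb] at h3
        rw [div_mul_eq_mul_div, h3, neg_div, mul_div_assoc, div_self (hw a), mul_one]
      · intro c _ hc
        by_cases h : ω (b c) (b e) = 0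
        · rw [h, mul_zero, zero_smul]
        · exfalso
          apply hc
          rw [eq_dl hb h, dl_dl hD hb]
      · intro h
        exact absurd (Finset.mem_univ _) h
    have h4 : ∑ a, -(b.repr (X (b e)) (dl st hb.dual a)) • b (dl st hb.dual a) = -X (b e) := by
      conv_rhs => rw [← b.sum_repr (X (b e))]
      rw [← Finset.sum_neg_distrib]
      refine Finset.sum_equiv ⟨dl st hb.dual, dl st hb.dual, dl_dl hD hb, dl_dl hD hb⟩
        (fun _ => by simp) fun a _ => ?_
      change _ = -(b.repr (X (b e)) (dl st hb.dual a) • b (dl st hb.dual a))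
      rw [neg_smul]
    have h5 : ∑ a, ∑ c, ((b.repr (X (b a)) c / ω (b a) (b (dl st hb.dual a))) *
          ω (b (dl st hb.dual a)) (b e)) • b c = -X (b e) := by
      rw [Finset.sum_eq_single e]
      · conv_rhs => rw [← b.sum_repr (X (b e))]
        rw [← Finset.sum_neg_distrib]
        refine Finset.sum_congr rfl fun c _ => ?_
        rw [hD.skew (b (dl st hb.dual e)) (b e), mul_neg, div_mul_cancel₀ _ (hw e), neg_smul]
      · intro a _ ha
        refine Finset.sum_eq_zero fun c _ => ?_
        by_cases h : ω (b (dl st hb.dual a)) (b e) = 0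
        · rw [h, mul_zero, zero_smul]
        · exfalso
          apply ha
          have h6 := eq_dl hb h
          rw [dl_dl hD hb] at h6
          exact h6.symm
      · intro h
        exact absurd (Finset.mem_univ _) h
    rw [Finset.sum_congr rfl fun a _ => h2 a, h4, h5, neg_smul, two_smul, neg_add]
  rw [LinearMap.smul_apply, key, smul_smul]
  norm_num

/-- the diagonal part -/
noncomputable def dg (b : Basis (Σ i, {x // x ∈ A i}) K Y) (X : Y →ₗ[K] Y) : Y →ₗ[K] Y :=
  b.constr K fun a => b.repr (X (b a)) a • b a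

theorem dg_b (X : Y →ₗ[K] Y) (a : Σ i, {x // x ∈ A i}) :
    dg b X (b a) = b.repr (X (b a)) a • b a := b.constr_basis K _ a

theorem good_dg (hD : Dat ω P st) (hb : EigBasis ω P st A q b) {X : Y →ₗ[K] Y}
    (hX : Good ω P X) : Good ω P (dg b X) := by
  classical
  constructor
  · intro i u
    have h : dg b X ∘ₗ P i = P i ∘ₗ dg b X := by
      refine b.ext fun a => ?_
      rw [LinearMap.comp_apply, LinearMap.comp_apply, dg_b, map_smul, P_b hD hb]
      split_ifs
      · rw [dg_b]
      · rw [map_zero, smul_zero]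
    exact LinearMap.congr_fun h u
  · intro u v
    have h : ω ∘ₗ dg b X = -(ω.compl₂ (dg b X)) := by
      refine b.ext fun a => b.ext fun c => ?_
      rw [LinearMap.neg_apply, LinearMap.neg_apply, LinearMap.comp_apply, LinearMap.compl₂_apply,
        dg_b, dg_b, map_smul, map_smul, LinearMap.smul_apply]
      by_cases hac : ω (b a) (b c) = 0
      · rw [hac, smul_zero, smul_zero, neg_zero]
      · have h1 := eq_dl hb hac
        subst h1
        have h2 := skew_M hD hb hX a a
        have h3 := w_ne hD hb a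
        rw [smul_eq_mul, smul_eq_mul]
        exact h2
    exact LinearMap.congr_fun (LinearMap.congr_fun h u) v

theorem tr_dg (hD : Dat ω P st) (hb : EigBasis ω P st A q b) (X : Y →ₗ[K] Y) (i : I) :
    tr P (dg b X) i = tr P X i := by
  classical
  unfold tr
  rw [LinearMap.trace_eq_matrix_trace K b, LinearMap.trace_eq_matrix_trace K b, Matrix.trace,
    Matrix.trace]
  refine Finset.sum_congr rfl fun a _ => ?_
  rw [Matrix.diag_apply, Matrix.diag_apply, LinearMap.toMatrix_apply, LinearMap.toMatrix_apply,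
    LinearMap.comp_apply, LinearMap.comp_apply, P_b hD hb]
  split_ifs
  · rw [dg_b, map_smul, Finsupp.smul_apply, Basis.repr_self, Finsupp.single_eq_same, smul_eq_mul,
      mul_one]
  · simp

end

/-- **L1c.** -/
theorem gen : Pool.Agent.L5helper29.OF.St_GEN := by
  intro K _ _ Y _ _ _ I _ _ ω P st hD A q b hb 𝔥 hC hR X hX htr
  classical
  have hd : dg b X ∈ 𝔥 := hC _ ⟨good_dg hD hb hX, fun i => by rw [tr_dg hD hb, htr],
    fun a => ⟨_, dg_b X a⟩⟩
  have hg := good_dg hD hb hX
  have hX' : Good ω P (X - dg b X) := by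
    constructor
    · intro i u
      rw [LinearMap.sub_apply, LinearMap.sub_apply, map_sub, hX.com, hg.com]
    · intro u v
      rw [LinearMap.sub_apply, LinearMap.sub_apply, map_sub, map_sub, LinearMap.sub_apply,
        hX.skew, hg.skew]
      ring
  have h1 : X - dg b X ∈ 𝔥 := by
    rw [decomp hD hb hX']
    refine 𝔥.smul_mem _ (𝔥.sum_mem fun a _ => 𝔥.sum_mem fun c _ => ?_)
    by_cases h0 : b.repr ((X - dg b X) (b a)) c = 0
    · rw [h0, zero_div, zero_smul]
      exact 𝔥.zero_mem
    · refine 𝔥.smul_mem _ (hR a c (piece hD hb hX' h0) ?_)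
      rintro rfl
      apply h0
      rw [LinearMap.sub_apply, dg_b, map_sub, map_smul, Finsupp.sub_apply, Finsupp.smul_apply,
        Basis.repr_self, Finsupp.single_eq_same, smul_eq_mul, mul_one, sub_self]
  have h2 := 𝔥.add_mem h1 hd
  rwa [sub_add_cancel] at h2

end Pool.Agent.L5helper24.OF
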